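import Mathlib

set_option autoImplicit false

namespace Pool.Agent.H.MP_dc9599_co

variable {V : Type}

theorem mem_E (l : List V) (u v : V) :
    (u, v) ∈ l.zip (l.rotate 1) ↔
      ∃ i : ℕ, ∃ h : i < l.length, l[i] = u ∧
        l[(i + 1) % l.length]'(Nat.mod_lt _ (by omega)) = v := by
  constructor
  · intro h
    obtain ⟨i, hi, he⟩ := List.mem_iff_getElem.1 h
    have hi' : i < l.length := by
      simp only [List.length_zip, List.length_rotate, min_self] at hi; exact hi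
    rw [List.getElem_zip, List.getElem_rotate] at he
    exact ⟨i, hi', (Prod.mk.inj he).1, (Prod.mk.inj he).2⟩
  · rintro ⟨i, hi, h1, h2⟩
    refine List.mem_iff_getElem.2 ⟨i, by simpa using hi, ?_⟩
    rw [List.getElem_zip, List.getElem_rotate, h1, h2]

theorem out_uniq (l : List V) (hc : l.Nodup) (u v w : V)
    (h1 : (u, v) ∈ l.zip (l.rotate 1)) (h2 : (u, w) ∈ l.zip (l.rotate 1)) : v = w := by
  obtain ⟨i, hi, a1, a2⟩ := (mem_E l u v).1 h1
  obtain ⟨j, hj, b1, b2⟩ := (mem_E l u w).1 h2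
  have : i = j := (List.Nodup.getElem_inj_iff hc).1 (a1.trans b1.symm)
  subst this
  exact a2.symm.trans b2

theorem in_uniq (l : List V) (hc : l.Nodup) (u v w : V)
    (h1 : (v, u) ∈ l.zip (l.rotate 1)) (h2 : (w, u) ∈ l.zip (l.rotate 1)) : v = w := by
  obtain ⟨i, hi, a1, a2⟩ := (mem_E l v u).1 h1
  obtain ⟨j, hj, b1, b2⟩ := (mem_E l w u).1 h2
  have h : (i + 1) % l.length = (j + 1) % l.length :=
    (List.Nodup.getElem_inj_iff hc).1 (a2.trans b2.symm)
  have : i = j := by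
    rcases Nat.lt_or_ge (i + 1) l.length with h3 | h3 <;>
      rcases Nat.lt_or_ge (j + 1) l.length with h4 | h4
    · rw [Nat.mod_eq_of_lt h3, Nat.mod_eq_of_lt h4] at h; omega
    · have : j + 1 = l.length := by omega
      rw [Nat.mod_eq_of_lt h3, this, Nat.mod_self] at h; omega
    · have : i + 1 = l.length := by omega
      rw [Nat.mod_eq_of_lt h4, this, Nat.mod_self] at h; omega
    · omega
  subst this
  exact a1.symm.trans b1

theorem ex_next (l : List V) (u v : V) (h1 : (u, v) ∈ l.zip (l.rotate 1)) :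
    ∃ w, (v, w) ∈ l.zip (l.rotate 1) := by
  obtain ⟨i, hi, a1, a2⟩ := (mem_E l u v).1 h1
  exact ⟨_, (mem_E l v _).2 ⟨(i + 1) % l.length, Nat.mod_lt _ (by omega), a2, rfl⟩⟩

theorem ex_prev (l : List V) (u v : V) (h1 : (u, v) ∈ l.zip (l.rotate 1)) :
    ∃ w, (w, u) ∈ l.zip (l.rotate 1) := by
  obtain ⟨i, hi, a1, a2⟩ := (mem_E l u v).1 h1
  rcases Nat.eq_zero_or_pos i with h0 | h0
  · subst h0
    refine ⟨_, (mem_E l _ u).2 ⟨l.length - 1, by omega, rfl, ?_⟩⟩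
    have : (l.length - 1 + 1) % l.length = 0 := by
      rw [Nat.sub_add_cancel (by omega), Nat.mod_self]
    simp only [this]; exact a1
  · refine ⟨_, (mem_E l _ u).2 ⟨i - 1, by omega, rfl, ?_⟩⟩
    have : (i - 1 + 1) % l.length = i := by
      rw [Nat.sub_add_cancel h0, Nat.mod_eq_of_lt hi]
    simp only [this]; exact a1

theorem closed (l : List V) (S : V → Prop)
    (hS : ∀ u v, (u, v) ∈ l.zip (l.rotate 1) → S u → S v) (x y : V)
    (hx : (x, y) ∈ l.zip (l.rotate 1)) (hSx : S x) (u v : V)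
    (hu : (u, v) ∈ l.zip (l.rotate 1)) : S u := by
  obtain ⟨i, hi, a1, -⟩ := (mem_E l x y).1 hx
  obtain ⟨j, hj, b1, -⟩ := (mem_E l u v).1 hu
  have key : ∀ k : ℕ, S (l[(i + k) % l.length]'(Nat.mod_lt _ (by omega))) := by
    intro k
    induction k with
    | zero => simp only [Nat.add_zero, Nat.mod_eq_of_lt hi]; rw [a1]; exact hSx
    | succ k ih =>
      refine hS _ _ ((mem_E l _ _).2 ⟨(i + k) % l.length, Nat.mod_lt _ (by omega), rfl, ?_⟩) ih
      simp only [Nat.mod_add_mod, Nat.add_assoc]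
  have := key (j + l.length - i)
  have e : (i + (j + l.length - i)) % l.length = j := by
    rw [show i + (j + l.length - i) = j + l.length by omega, Nat.add_mod_right,
      Nat.mod_eq_of_lt hj]
  simp only [e] at this
  rw [b1] at this; exact this

/-- colouring of the arcs by the index of the circuit that carries them -/
theorem colouring (A : Finset (V × V)) (L : List (List V))
    (h1 : ∀ c ∈ L, c.Nodup ∧ 2 ≤ c.length ∧ ∀ e ∈ c.zip (c.rotate 1), e ∈ A)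
    (h2 : ∀ e ∈ A, ∃ c ∈ L, e ∈ c.zip (c.rotate 1))
    (h3 : L.Pairwise (fun c d => ∀ e ∈ c.zip (c.rotate 1), e ∉ d.zip (d.rotate 1))) :
    ∃ φ : V × V → ℕ, (∀ e ∈ A, φ e < L.length) ∧
      (∀ u v w, (u, v) ∈ A → (u, w) ∈ A → φ (u, v) = φ (u, w) → v = w) ∧
      (∀ u v w, (v, u) ∈ A → (w, u) ∈ A → φ (v, u) = φ (w, u) → v = w) ∧
      (∀ u v, (u, v) ∈ A → ∃ w, (v, w) ∈ A ∧ φ (v, w) = φ (u, v)) ∧
      (∀ u v, (u, v) ∈ A → ∃ w, (w, u) ∈ A ∧ φ (w, u) = φ (u, v)) ∧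
      (∀ x p q u v, (x, p) ∈ A → (p, q) ∈ A → (q, x) ∈ A → (u, v) ∈ A →
        φ (p, q) = φ (x, p) → φ (q, x) = φ (x, p) → φ (u, v) = φ (x, p) →
          u = x ∨ u = p ∨ u = q) := by
  classical
  have ex : ∀ e : V × V, ∃ k : ℕ, e ∈ A → ∃ h : k < L.length,
      e ∈ (L[k]).zip ((L[k]).rotate 1) := by
    intro e
    by_cases he : e ∈ A
    · obtain ⟨c, hc, hec⟩ := h2 e he
      obtain ⟨k, hk, rfl⟩ := List.mem_iff_getElem.1 hc
      exact ⟨k, fun _ => ⟨hk, hec⟩⟩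
    · exact ⟨0, fun h => absurd h he⟩
  choose φ hφ using ex
  have uniq : ∀ (e : V × V) (k : ℕ) (hk : k < L.length), e ∈ (L[k]).zip ((L[k]).rotate 1) →
      e ∈ A ∧ φ e = k := by
    intro e k hk he
    have heA : e ∈ A := (h1 _ (List.getElem_mem hk)).2.2 e he
    refine ⟨heA, ?_⟩
    obtain ⟨hk', he'⟩ := hφ e heA
    rw [List.pairwise_iff_getElem] at h3
    rcases lt_trichotomy (φ e) k with h | h | h
    · exact absurd he (h3 _ _ hk' hk h e he')
    · exact h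
    · exact absurd he' (h3 _ _ hk hk' h e he)
  have tr : ∀ (e f : V × V), e ∈ A → (hf : f ∈ A) → φ e = φ f →
      e ∈ (L[φ f]'(hφ f hf).1).zip ((L[φ f]'(hφ f hf).1).rotate 1) := by
    intro e f he hf h
    have := (hφ e he).2
    simp only [h] at this
    exact this
  refine ⟨φ, fun e he => (hφ e he).1, ?_, ?_, ?_, ?_, ?_⟩
  · intro u v w a b h
    exact out_uniq _ (h1 _ (List.getElem_mem _)).1 u v w (tr _ _ a b h) (tr _ _ b b rfl)
  · intro u v w a b h
    exact in_uniq _ (h1 _ (List.getElem_mem _)).1 u v w (tr _ _ a b h) (tr _ _ b b rfl)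
  · intro u v a
    obtain ⟨w, hw⟩ := ex_next _ u v (tr _ _ a a rfl)
    exact ⟨w, uniq _ _ _ hw⟩
  · intro u v a
    obtain ⟨w, hw⟩ := ex_prev _ u v (tr _ _ a a rfl)
    exact ⟨w, uniq _ _ _ hw⟩
  · intro x p q u v a b c d e1 e2 e3
    have nd := (h1 _ (List.getElem_mem (hφ _ a).1)).1
    have m1 := tr _ _ a a rfl
    have m2 := tr _ _ b a e1
    have m3 := tr _ _ c a e2
    refine closed _ (fun t => t = x ∨ t = p ∨ t = q) ?_ x p m1 (Or.inl rfl) u v (tr _ _ d a e3)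
    rintro s t hst (rfl | rfl | rfl)
    · exact Or.inr (Or.inl (out_uniq _ nd _ _ _ hst m1))
    · exact Or.inr (Or.inr (out_uniq _ nd _ _ _ hst m2))
    · exact Or.inl (out_uniq _ nd _ _ _ hst m3)

/-- the local parity argument on one cyclically oriented octahedron -/
theorem loc (ha hb xa xb ac ad bc bd ch cx dh dx xo : ℕ)
    (n2 : cx ≠ dx) (n3 : ha ≠ xa) (n4 : hb ≠ xb) (n5 : ac ≠ ad) (n6 : bc ≠ bd)
    (n7 : ac ≠ bc) (n8 : ad ≠ bd) (n9 : ch ≠ cx) (n10 : dh ≠ dx)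
    (e1 : xa = cx ∨ xb = cx ∨ xo = cx) (e2 : xa = dx ∨ xb = dx ∨ xo = dx)
    (e3 : ac = xa ∨ ad = xa) (e4 : bc = xb ∨ bd = xb)
    (e5 : ac = cx ∨ bc = cx) (e6 : ad = dx ∨ bd = dx) :
    (ac = xa ∧ cx = xa) ∨ (ad = xa ∧ dx = xa) ∨ (bc = xb ∧ cx = xb) ∨ (bd = xb ∧ dx = xb) := by
  omega

end Pool.Agent.H.MP_dc9599_co
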